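import Pool.Agent.Run7.h770.IJ.FinalK
set_option autoImplicit false

/-!
Beilinson's conjecture for `K_2` of curves over number fields, elliptic curves: every elliptic
curve over a number field acquires, over a finite extension of the ground field, an explicit
symbol whose regulator is nonzero at EVERY complex embedding, and which is unramified if the
`j`-invariant is integral.
-/

namespace Pool.Agent.Results.MP_0a9c3b_nt.EveryEmbedding

open WeierstrassCurve

open Pool.Agent.Run7.h770.IJ

universe u w

/-- For an element `k` with `k ≠ 0`, `k² ≠ 16` of a field let `crv k` be the curve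
`Y² + k X Y = X³ - 2 X² + X`, with discriminant `k² (k² - 16)` and `j`-invariant
`jk k = (k⁴ - 16 k² + 16)³ / (k² (k² - 16))`, and let `x = Y / (1 - X)`, `y = - (Y + k X) / (1 - X)`,
units on the part `X ≠ 0, 1` of the curve with `x + 1/x + y + 1/y = k`.

(1) For every number field `L` and every `k` in `L` with `k ≠ 0`, `k² ≠ 16` the symbol `{x, y}` has
the property `GoodSymbol k`: the curve is nonsingular; the symbol in `K_2` of the function field
lies in the part generated by units at every discrete valuation `v` with `v (k) ≤ 1`, hence at all
discrete valuations if `k` is an algebraic integer; and for EVERY embedding `s` of `L` into the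
complex numbers there is a closed path in the complex points over `s` along which the regulator
integral of `{x, y}` is not zero.

(2) Every elliptic curve `E` over a number field `K` becomes isomorphic to some `crv k` over a
finite extension `L` of `K`; so there it has such a symbol, and it is unramified at all discrete
valuations if the `j`-invariant of `E` is an algebraic integer. -/
theorem result :
    (∀ (L : Type u) [Field L] [NumberField L] (k : L), k ≠ 0 → k ^ 2 ≠ 16 →
      GoodSymbol.{u, w} k) ∧
    ∀ (K : Type u) [Field K] [NumberField K] (E : WeierstrassCurve K) [E.IsElliptic],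
      ∃ (L : Type u) (_ : Field L) (_ : NumberField L) (_ : Algebra K L) (k : L)
        (C : VariableChange L), k ≠ 0 ∧ k ^ 2 ≠ 16 ∧ jk k = algebraMap K L E.j ∧
          C • E.map (algebraMap K L) = crv k ∧ (IsIntegral ℤ E.j → IsIntegral ℤ k) ∧
          GoodSymbol.{u, w} k := by
  refine ⟨fun L _ _ k h0 h4 => goodSymbol h0 h4, fun K _ _ E _ => ?_⟩
  obtain ⟨L, i1, i2, i3, k, C, h0, h4, hj, hC⟩ := exists_ext K E
  refine ⟨L, i1, i2, i3, k, C, h0, h4, hj, hC, fun hi => int_of_jk h0 h4 ?_, goodSymbol h0 h4⟩
  rw [hj]
  exact hi.map (algebraMap K L).toIntAlgHom

end Pool.Agent.Results.MP_0a9c3b_nt.EveryEmbedding
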