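import Pool.Agent.Run7.h954.MX.HReg
import Pool.Agent.Run7.h954.MX.Dom
set_option autoImplicit false

/-!
Beilinson's conjecture on `K_2` of curves over number fields: on the plane curves
`λ ∏_k ∏_i L_{k,i}(x, w) = 1`, where the polynomials `L_{k,0}, ..., L_{k,r_k}` of the `k`-th group have
the leading forms `G_k^a` (with respect to any weights of `x` and `w`), there are unramified symbols
`{u_{k,i}, u_{l,j}}`, `k < l`, `1 ≤ i ≤ r_k`, `1 ≤ j ≤ r_l`, whose regulators on as many loops are
asymptotic to a diagonal matrix, for large `λ`.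
-/

namespace Pool.Agent.Results.MP_0a9c3b_nt.PlaneCurvesWeightedForms

open Pool.Agent.TH826.MK (KQ Unramified Torus)

open Pool.Agent.Run7.h954.MX

/-- The symbols have unramified images in the Milnor K-theory of all fields with a homomorphism from
the coordinate ring of the curve. -/
def UnramifiedSymbols.{u, v} {K : Type u} [Field K] {q : ℕ} (D : Data K 2 q) (lam : K) : Prop :=
  ∀ (L : Type v) [Field L] (f : D.XRing lam →+* L) (t : D.Idx),
    KQ.map _ f (D.sym lam t) ∈ Unramified L _

open scoped Classical in
/-- There are loops `Γ_t`, indexed like the symbols by the `t = ((k, i), (l, j))`, in the complex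
points (over `σ`) of the curve, such that the regulator of the symbol with the index `t'` on `Γ_t`,
divided by `log |σ λ|`, differs by at most `ε` from `- 2 π a_{k,0} a_{l,0}` for `t = t'` and from `0`
for `t ≠ t'`, and the determinant of the matrix of the regulators does not vanish. -/
def DiagonalRegulators {K : Type*} [Field K] {q : ℕ} (D : Data K 2 q) (σ : K →+* ℂ) (lam : K)
    (ε : ℝ) : Prop :=
  ∃ Γ : D.Idx → Torus (D.XRing lam) 1,
    (∀ t θ (x : K), (Γ t).e θ (D.xcst lam x) = σ x) ∧
    (∀ t t', |(Γ t).reg (D.sym lam t') / Real.log ‖σ lam‖ -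
      (if t = t' then -(2 * Real.pi * (D.a (t.1 0).1 0 * D.a (t.1 1).1 0)) else 0)| ≤ ε) ∧
    (Matrix.of fun t t' : D.Idx => (Γ t).reg (D.sym lam t')).det ≠ 0

/-- Let `K` be a number field. Give the variables `x` and `w` of the plane any positive integral
weights. Let `G_0, ..., G_{q-1}` be weighted homogeneous polynomials in `x` and `w` with integral
coefficients, any two of which have no common zero in the plane except for the origin, also modulo
all primes; that is, powers of `x` and of `w` are linear combinations of them whose coefficients are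
polynomials with integral coefficients (of the right weights). For example `x`, `w`, `x + w`,
`x² + x w + w²` with the weights `1, 1`, or `x` and `w² - x³` with the weights `2, 3`. For each `k`
let `L_{k,0}, ..., L_{k,r_k}` be polynomials in `x` and `w` with integral coefficients, such that
`L_{k,i}` is `G_k ^ a_{k,i}` plus terms of smaller weight, `a_{k,i} ≥ 1` (`Data.Adm`). For `λ` in `K`
let `X_λ` be the plane curve `λ ∏_k ∏_i L_{k,i}(x, w) = 1`, with the coordinate ring `D.XRing λ`. On
it there are the symbols `{u_{k,i}, u_{l,j}}`, `u_{k,i} = L_{k,i}^{a_{k,0}} / L_{k,0}^{a_{k,i}}`, for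
all `k < l`, `1 ≤ i ≤ r_k`, `1 ≤ j ≤ r_l` (`D.sym λ t` for the index `t` in `D.Idx`).

* For all integral `λ` the symbols in `K_2 ⊗ ℚ` of the coordinate ring of `X_λ` have unramified
  images in the Milnor K-theory of all fields `L` with a homomorphism from the coordinate ring to `L`
  (for example the function fields of the components of `X_λ`).

* Let `σ` be an embedding of `K` such that for all `k < l`, `i, j ≥ 1` the curves `L_{k,i} = 0` and
  `L_{l,j} = 0` intersect transversally at a complex point (over `σ`) which does not lie on the curves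
  of the other polynomials (`Data.Zeros`). Then for all `ε > 0` and all `λ` in `K` with
  `|σ λ| ≥ C₀(σ, ε)` there are as many loops in the complex points (over `σ`) of `X_λ` as there are
  symbols, such that the matrix of the regulators, divided by `log |σ λ|`, differs in all entries by
  at most `ε` from the diagonal matrix with the entries `- 2 π a_{k,0} a_{l,0}`, and its determinant
  does not vanish. -/
theorem result.{u, v} (q : ℕ) (K : Type u) [Field K] [NumberField K] (D : Data K 2 q)
    (hD : D.Adm) :
    (∀ lam : K, IsIntegral ℤ lam → UnramifiedSymbols.{u, v} D lam) ∧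
    ∀ σ : K →+* ℂ, D.Zeros σ → ∀ ε : ℝ, 0 < ε → ∃ C₀ : ℝ, ∀ lam : K, C₀ ≤ ‖σ lam‖ →
      DiagonalRegulators D σ lam ε := by
  refine ⟨fun lam hlam L _ f t => D.unram hD hlam f t, fun σ hz ε hε => ?_⟩
  classical
  have hpi := Real.pi_pos
  have hq : ∀ t : D.Idx, -(2 * Real.pi * ((D.a (t.1 0).1 0 : ℝ) * D.a (t.1 1).1 0)) ≠ 0 := by
    intro t
    have h1 : (D.a (t.1 0).1 0 : ℝ) ≠ 0 := by exact_mod_cast (hD.apos _ _).ne'
    have h2 : (D.a (t.1 1).1 0 : ℝ) ≠ 0 := by exact_mod_cast (hD.apos _ _).ne'
    exact neg_ne_zero.2 (mul_ne_zero (by positivity) (mul_ne_zero h1 h2))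
  obtain ⟨ε1, hε1, hdet⟩ := exists_det' hq
  obtain ⟨C₀, hC⟩ := exists_htori D σ hz (lt_min hε hε1)
  refine ⟨max C₀ 2, fun lam hlam => ?_⟩
  obtain ⟨Γ, h1, h2⟩ := hC lam ((le_max_left _ _).trans hlam)
  have h2' : ∀ t t', |(Γ t).reg (D.sym lam t') / Real.log ‖σ lam‖ -
      (if t = t' then -(2 * Real.pi * ((D.a (t.1 0).1 0 : ℝ) * D.a (t.1 1).1 0)) else 0)| ≤
      min ε ε1 := by
    intro t t'
    have h3 := h2 t t'
    have e1 : (2 * Real.pi) ^ 1 * (RH t t').det =
        if t = t' then -(2 * Real.pi * ((D.a (t.1 0).1 0 : ℝ) * D.a (t.1 1).1 0)) else 0 := by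
      rw [det_RH, pow_one, Fin.prod_univ_two]
      by_cases h : t = t'
      · rw [if_pos h, if_pos h]
        ring
      · rw [if_neg h, if_neg h, mul_zero]
    rwa [e1] at h3
  have hτ : Real.log ‖σ lam‖ ≠ 0 := by
    have h3 : (2 : ℝ) ≤ ‖σ lam‖ := (le_max_right _ _).trans hlam
    exact (Real.log_pos (by linarith)).ne'
  refine ⟨Γ, h1, fun t t' => ?_, ?_⟩
  · have h3 := (h2' t t').trans (min_le_left _ _)
    by_cases h : t = t'
    · rw [if_pos h] at h3 ⊢
      exact h3
    · rw [if_neg h] at h3 ⊢
      exact h3
  · have h4 := hdet (Matrix.of fun t t' : D.Idx => (Γ t).reg (D.sym lam t')) _ hτ fun t t' => by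
      have h3 := (h2' t t').trans (min_le_right _ _)
      exact h3
    convert h4

end Pool.Agent.Results.MP_0a9c3b_nt.PlaneCurvesWeightedForms
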