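import Pool.Agent.Run7.h153.PC.RealQ
import Pool.Agent.N76.SR.All

set_option autoImplicit false

/-!
Beilinson's regulator on the integral part of `K_2` of hyperelliptic curves over number fields with a *real* place:
surjectivity onto the real component, without exceptions.

Let `C : y² = D(x)` be a hyperelliptic curve of genus `g` over a number field `K`, with a solution of the Pell equation
`P² - D Q² = 1` such that `2 P` is monic with integral coefficients (the difference of the two points at infinity is
torsion, `z = P + Q y` is a unit on the affine curve), and let `σ` be a real embedding of `K`. The component at `σ` of the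
target of Beilinson's regulator is `Hom(H_1(C_σ(ℂ), ℤ)^-, ℝ)`, of dimension `g`. For a loop `γ` in `C_σ(ℂ)` let `γ^-` be
its projection to `H_1(C_σ(ℂ), ℚ)^-`; as the differentials `x^j dx / y` are real, the loops `γ_1, ..., γ_d` have linearly
independent projections if and only if the vectors of the imaginary parts of their periods are linearly independent.

We show: for every real number `x₀` with `|P(x₀)| < 1` there are in every neighbourhood of `x₀` real algebraic integers
`b_0, ..., b_g` such that for every number field `L ⊇ K` with a real embedding `s` above `σ` whose image contains them, the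
`g` symbols `{z, (x - b_i) / (x - b_0)}` of `K_2(C_L)` are unramified at all discrete valuations and their regulators at
the real place `s` are a basis of the real component. So `K_2(C_L)_ℤ ⊗ ℝ` is mapped *onto* the component of the place `s`.
There is no condition on the critical values of `P` and no exceptional case: in contrast to the complex places (where
coverings of totally real curves have to be excluded) the argument does not need that `P` is indecomposable.

The proof. If a real combination of the regulators on the loops is constant on the real special points near `x₀`, then its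
derivative vanishes, so `J(b) = ∑ c_l ∫_{γ_l} r(x) dx / ((x - b) y)` is real for all real `b` near `x₀`. The exchange of
argument and parameter turns this into the reality of a polynomial `n r² + D' R r / 2 + D (R' r - R r')` on an interval,
where `deg R < deg r`, hence into the vanishing of the same expression for the imaginary parts. At a zero of `r` at which
`(Im R) / r` has a pole, the order of the expression is finite; so `Im R = 0`, and the periods of the combination are real.
-/

namespace Pool.Agent.Results.MP_0a9c3b_nt.RealComponents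

open Polynomial

open Pool.Agent.Y94.R

open Pool.Agent.N76.SR (UnramifiedSymbols IndependentRegulators)

/-- Let `K` be a field, `σ` an embedding of `K` in `ℝ`, `D` a squarefree polynomial of degree `2 g + 2` over `K`, and
`P² - D Q² = 1`, `P' = r Q`, where `2 P` is monic, not constant and has algebraic integers as coefficients. There are
`g` loops `γ_l = (x_l, y_l)` in the complex points of the curve `y² = D(x)` over `σ`, with `y_l ≠ 0`, such that the
vectors `(Im ∫ x^j dx / y)_{j < g}` are linearly independent over `ℝ`, and such that `P(x_l)` takes only finitely many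
values in the real interval `(-1, 1)`.

Let `γ_1, ..., γ_d` be any loops with linearly independent vectors `(Im ∫ x^j dx / y)_{j < g}` (so `d ≤ g`), let `x₀` be a
real number with `|P(x₀)| < 1` which is not a value of the functions `x_l`, and let `ε > 0`. There are real algebraic
integers `b_0, ..., b_d` with `|b_i - x₀| < ε` and `2 P(b_i) = ζ + 1/ζ` for roots of unity `ζ`, with the following
property. Let `L` be an extension of `K`, `s` an embedding of `L` in `ℝ` above `σ`, and let `c_i` be elements of `L` with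
`s(c_i) = b_i`. Then the coordinate ring of the curve `C : y² = D(x)` over `L` is a domain, its complex points over `s` are
smooth, the symbols `{P + Q y, (x - c_i) / (x - c_j)}` are unramified at all discrete valuations of the function field of
`C` over `L`, and the `d` vectors of the regulators of the symbols `{P + Q y, (x - c_i) / (x - c_0)}`, `1 ≤ i ≤ d`, on the
loops `γ_1, ..., γ_d`, at the real place `s`, are linearly independent over `ℝ`. -/
theorem result.{u, v, w} (g : ℕ) (K : Type u) [Field K] (D P Q r : K[X])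
    (hD : Squarefree D) (hdeg : D.natDegree = 2 * g + 2) (hPQ : P ^ 2 - D * Q ^ 2 = 1) (hP : 0 < P.natDegree)
    (hr : derivative P = r * Q) (hmon : (C 2 * P).Monic) (hint : ∀ i, IsIntegral ℤ ((C 2 * P).coeff i))
    (σ : K →+* ℝ) :
    (∃ γ : Fin g → Lp (D.map ((algebraMap ℝ ℂ).comp σ)),
      (LinearIndependent ℝ fun (l : Fin g) (j : Fin g) =>
        (∫ t in (0 : ℝ)..1, (γ l).x t ^ (j : ℕ) * deriv (γ l).x t / (γ l).y t).im) ∧
      {τ : ℝ | |τ| < 1 ∧ ∃ l t, (P.map ((algebraMap ℝ ℂ).comp σ)).eval ((γ l).x t) = (τ : ℂ)}.Finite) ∧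
    ∀ (d : ℕ) (γ : Fin d → Lp (D.map ((algebraMap ℝ ℂ).comp σ))),
      (LinearIndependent ℝ fun (l : Fin d) (j : Fin g) =>
        (∫ t in (0 : ℝ)..1, (γ l).x t ^ (j : ℕ) * deriv (γ l).x t / (γ l).y t).im) →
      ∀ x₀ ε : ℝ, |(P.map σ).eval x₀| < 1 → (∀ l t, (γ l).x t ≠ x₀) → 0 < ε →
      ∃ b : Fin (d + 1) → ℝ,
        (∀ i, |b i - x₀| < ε ∧ IsIntegral ℤ (b i) ∧
          ∃ (ζ : ℂ) (n : ℕ), n ≠ 0 ∧ ζ ^ n = 1 ∧ 2 * (((P.map σ).eval (b i) : ℝ) : ℂ) = ζ + ζ⁻¹) ∧
        ∀ (L : Type v) [Field L] (ι : K →+* L) (s : L →+* ℝ) (c : Fin (d + 1) → L),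
          s.comp ι = σ → (∀ i, s (c i) = b i) →
          IsDomain (HRing (D.map ι)) ∧
          (∀ x y : ℂ, y ^ 2 = (D.map ι).eval₂ ((algebraMap ℝ ℂ).comp s) x →
            2 * y ≠ 0 ∨ (derivative (D.map ι)).eval₂ ((algebraMap ℝ ℂ).comp s) x ≠ 0) ∧
          ∃ hPQL : (P.map ι) ^ 2 - D.map ι * (Q.map ι) ^ 2 = 1,
            UnramifiedSymbols.{v, w} hPQL c ∧
            IndependentRegulators hPQL (fun _ : Fin 1 => (algebraMap ℝ ℂ).comp s)
              (fun _ l => (γ l).x) (fun _ l => (γ l).y) c := by
  have : CharZero K := σ.charZero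
  set τ : K →+* ℂ := (algebraMap ℝ ℂ).comp σ with hτ
  have hr0 : r ≠ 0 := by
    rintro rfl
    rw [zero_mul, Polynomial.derivative_eq_zero] at hr
    omega
  have hpell : Pell (D.map τ) (P.map τ) (Q.map τ) (r.map τ) :=
    ⟨by rw [← Polynomial.map_pow, ← Polynomial.map_pow, ← Polynomial.map_mul, ← Polynomial.map_sub, hPQ,
        Polynomial.map_one], by rw [derivative_map, hr, Polynomial.map_mul], by rwa [natDegree_map]⟩
  have hDτ : Squarefree (D.map τ) := ((PerfectField.separable_iff_squarefree.2 hD).map (f := τ)).squarefree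
  have hdegτ : (D.map τ).natDegree = 2 * g + 2 := by rw [natDegree_map, hdeg]
  have hPτ : ∀ t : ℝ, (P.map τ).eval (t : ℂ) = (((P.map σ).eval t : ℝ) : ℂ) := by
    intro t
    rw [hτ, ← Polynomial.map_map]
    exact Pool.Agent.Run7.h153.PC.conj_eval (P.map σ) t
  refine ⟨Pool.Agent.Run7.h153.PC.exists_im_loops hDτ hdegτ (by rwa [natDegree_map])
    ((Polynomial.map_ne_zero_iff τ.injective).2 hr0), ?_⟩
  intro d γ hind x₀ ε hx₀ hoff hε
  obtain ⟨b, hb, hli⟩ := Pool.Agent.Run7.h153.PC.exists_real_pts γ hpell hDτ hdegτ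
    (Pool.Agent.Run7.h153.PC.isReal_map σ D) (Pool.Agent.Run7.h153.PC.isReal_map σ P)
    (Pool.Agent.Run7.h153.PC.isReal_map σ r) hind (x₀ := x₀) (ε := ε)
    (by rw [hPτ, Complex.ofReal_re]; exact hx₀) (fun l t => sub_ne_zero.2 (hoff l t)) hε
  have hmτ : (C 2 * P.map τ).Monic := by
    have h1 : C 2 * P.map τ = (C 2 * P).map τ := by
      rw [Polynomial.map_mul, Polynomial.map_C, map_ofNat τ]
    rw [h1]
    exact hmon.map _
  have hiτ : ∀ i, IsIntegral ℤ ((C 2 * P.map τ).coeff i) := fun i => by
    have h1 : C 2 * P.map τ = (C 2 * P).map τ := by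
      rw [Polynomial.map_mul, Polynomial.map_C, map_ofNat τ]
    rw [h1, coeff_map]
    exact (hint i).map τ.toIntAlgHom
  have hsp : ∀ i, ∃ (ζ : ℂ) (n : ℕ), n ≠ 0 ∧ ζ ^ n = 1 ∧
      2 * (((P.map σ).eval (b i) : ℝ) : ℂ) = ζ + ζ⁻¹ := fun i => by
    obtain ⟨ζ, n, h1, h2, h3⟩ := (hb i).2.1
    exact ⟨ζ, n, h1, h2, by rw [← hPτ]; exact h3⟩
  have hbi : ∀ i, IsIntegral ℤ (b i) := fun i => by
    obtain ⟨ζ, n, h1, h2, h3⟩ := (hb i).2.1
    have h4 : IsIntegral ℤ ((b i : ℝ) : ℂ) := Pool.Agent.N686.PF.isIntegral_special (RingHom.id ℂ) hmτ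
      (by rw [natDegree_C_mul two_ne_zero, natDegree_map]; exact hP) hiτ h1 h2 (by
        rw [RingHom.id_apply, eval_mul, eval_C]
        exact h3)
    exact (isIntegral_algHom_iff ((algebraMap ℝ ℂ).toIntAlgHom) (algebraMap ℝ ℂ).injective).1 h4
  refine ⟨b, fun i => ⟨(hb i).1, hbi i, hsp i⟩, ?_⟩
  intro L _ ι s c hs hc
  have : CharZero L := s.charZero
  have hDL : Squarefree (D.map ι) := ((PerfectField.separable_iff_squarefree.2 hD).map (f := ι)).squarefree
  have hdegL : 0 < (D.map ι).natDegree := by
    rw [natDegree_map, hdeg]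
    omega
  have hPQL : (P.map ι) ^ 2 - D.map ι * (Q.map ι) ^ 2 = 1 := by
    rw [← Polynomial.map_pow, ← Polynomial.map_pow, ← Polynomial.map_mul, ← Polynomial.map_sub, hPQ, Polynomial.map_one]
  have hF : C 2 * P.map ι = (C 2 * P).map ι := by
    rw [Polynomial.map_mul, Polynomial.map_C, map_ofNat ι]
  have hiL : ∀ i, IsIntegral ℤ ((C 2 * P.map ι).coeff i) := fun i => by
    rw [hF, coeff_map]
    exact (hint i).map ι.toIntAlgHom
  have hci : ∀ i, IsIntegral ℤ (c i) := fun i => by
    have h1 := hbi i
    rw [← hc i] at h1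
    exact (isIntegral_algHom_iff (s.toIntAlgHom) s.injective).1 h1
  have hsτ : ((algebraMap ℝ ℂ).comp s).comp ι = τ := by
    rw [RingHom.comp_assoc, hs]
  have hPL : ∀ i, ((P.map ι).map s).eval (b i) = s ((P.map ι).eval (c i)) := fun i => by
    rw [← hc i]
    exact (Polynomial.eval_map s (s (c i))).trans (eval₂_at_apply s (c i))
  have hspL : ∀ i, ∃ (ζ : ℂ) (k : ℕ), k ≠ 0 ∧ ζ ^ k = 1 ∧
      ((algebraMap ℝ ℂ).comp s) ((C 2 * P.map ι).eval (c i)) = ζ + ζ⁻¹ := fun i => by
    obtain ⟨ζ, n, h1, h2, h3⟩ := hsp i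
    refine ⟨ζ, n, h1, h2, ?_⟩
    rw [← h3, eval_mul, eval_C, map_mul, map_ofNat, RingHom.comp_apply, ← hPL, Polynomial.map_map, hs]
    rfl
  refine ⟨isDomain_HRing hDL hdegL, fun x y h => Pool.Agent.N76.SR.smooth hDL _ x y h, hPQL, ?_, ?_⟩
  · exact Pool.Agent.N76.SR.unram Pool.Agent.N76.SR.unr hPQL ((algebraMap ℝ ℂ).comp s) hDL hdegL hiL hci hspL
  · refine Pool.Agent.N76.SR.indep_reg (r := r.map ι) hPQL (fun _ : Fin 1 => (algebraMap ℝ ℂ).comp s)
      (Dc := fun _ => D.map τ) (Pc := fun _ => P.map τ) (Qc := fun _ => Q.map τ) (rc := fun _ => r.map τ)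
      (fun _ => by rw [Polynomial.map_map, hsτ]) (fun _ => by rw [Polynomial.map_map, hsτ])
      (fun _ => by rw [Polynomial.map_map, hsτ]) (fun _ => by rw [Polynomial.map_map, hsτ]) (fun _ => hpell)
      (fun _ => γ) c (fun _ l i => ?_) ?_
    · show (γ l).Off (((s (c i) : ℝ)) : ℂ)
      rw [hc i]
      exact (hb i).2.2 l
    · rw [Fintype.linearIndependent_iff] at hli ⊢
      intro a ha k
      refine hli a ?_ k
      funext l
      have h1 := congrFun (congrFun ha 0) l
      simp only [Finset.sum_apply, Pi.smul_apply, smul_eq_mul, Pi.zero_apply, RingHom.comp_apply,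
        Complex.coe_algebraMap, hc] at h1 ⊢
      exact h1

end Pool.Agent.Results.MP_0a9c3b_nt.RealComponents
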