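import Pool.Agent.Run7.h770.PG.Main6
set_option autoImplicit false

/-!
Beilinson's conjecture for `K_2` of elliptic curves: all the twisted regulators of a cyclic family of
elements of the integral part are nonzero.
-/

namespace Pool.Agent.Results.MP_0a9c3b_nt.TwistedRegulators

open WeierstrassCurve

open Pool.Agent.Run7.h770.IJ (crv jk j_crv exists_crv isElliptic_crv)

open Pool.Agent.W367.KT (K2 H2MZ Loop)

open Pool.Agent.Run7.h770.PG (K2Q)

open Pool.Agent.T6.H7.SX (cst Xf Yf)

/-- The homomorphism `Γ` of the function field of the curve `W` over `L` is `g` on the constants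
and fixes the coordinate functions `X` and `Y`. -/
def Induces {L : Type*} [Field L] (W : WeierstrassCurve L) (g : L →+* L)
    (Γ : W.toAffine.FunctionField →+* W.toAffine.FunctionField) : Prop :=
  (∀ c, Γ (cst W c) = cst W (g c)) ∧ Γ (Xf W) = Xf W ∧ Γ (Yf W) = Yf W

/-- The closed paths over the embedding `σ` of the subfield `K` of `L`: all the embeddings of the
function field `L(W)` in the family restrict to `σ` on `K`. -/
def PathsOver {K L : Type*} [Field K] [Field L] [Algebra K L] (W : WeierstrassCurve L)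
    (σ : K →+* ℂ) : Set (Loop W.toAffine.FunctionField) :=
  {γ | ∀ (t : ℝ) (c : K), γ.e t (cst W (algebraMap K L c)) = σ c}

/-- There are an element `α` of `V` with all its translates `S ^ j α` in the subspace `H`,
`S ^ r α = α`, and a linear functional `l` in the set `P` such that for every character
`j ↦ ζ ^ j` of the cyclic group of order `r` the sum of the numbers `ζ ^ j * l (S ^ j α)` is not
zero. -/
def AllTwists {V : Type*} [AddCommGroup V] [Module ℚ V] (H : Submodule ℚ V)
    (P : Set (V →ₗ[ℚ] ℝ)) (S : V →ₗ[ℚ] V) (r : ℕ) : Prop :=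
  ∃ α : V, (∀ j : ℕ, (S ^ j) α ∈ H) ∧ (S ^ r) α = α ∧ ∃ l ∈ P, ∀ ζ : ℂ, ζ ^ r = 1 →
    ∑ j ∈ Finset.range r, ζ ^ j * ((l ((S ^ j) α) : ℝ) : ℂ) ≠ 0

/-- Let `g` be an endomorphism of the field `L`, acting on the function field `L(W)` of the curve `W`
through the constants. There are an `α` in `K_2 (L(W)) ⊗ ℚ` of period `r` all of whose translates
belong to the integral part `H2MZ` (their tame symbols at the discrete valuations of `L(W)` vanish)
and one closed path over `σ` such that all the twisted regulator integrals of `α` are not zero. -/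
def TwistsOver {K L : Type*} [Field K] [Field L] [Algebra K L] (W : WeierstrassCurve L)
    (g : L →+* L) (σ : K →+* ℂ) (r : ℕ) : Prop :=
  ∃ Γ : W.toAffine.FunctionField →+* W.toAffine.FunctionField, Induces W g Γ ∧
    AllTwists (H2MZ W.toAffine.FunctionField)
      ((fun γ : Loop W.toAffine.FunctionField => γ.regQ) '' PathsOver W σ) (K2Q Γ) r

/-- The `j`-invariant of `E` is an algebraic integer, or `E` has an integral parameter `k`: an
algebraic integer `k` with `(k⁴ - 16 k² + 16)³ = j k² (k² - 16)`, that is, such that `E` is over an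
algebraic closure isomorphic to the (smooth) curve `x + 1/x + y + 1/y = k`. -/
def IntegralParameter {K : Type*} [Field K] (E : WeierstrassCurve K) [E.IsElliptic] : Prop :=
  IsIntegral ℤ E.j ∨ ∃ k : AlgebraicClosure K, IsIntegral ℤ k ∧
    (k ^ 4 - 16 * k ^ 2 + 16) ^ 3 =
      algebraMap K (AlgebraicClosure K) E.j * (k ^ 2 * (k ^ 2 - 16))

/-- The finite extension `L` of `K` has degree at most `d`, and it has a `K`-endomorphism `g` with
`g ^ r = 1` such that all the twisted regulators over the embedding `σ` of `K` of some element of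
the integral part of `K_2 ⊗ ℚ` of the curve `E` over `L` are not zero, in the sense of
`TwistsOver`. -/
def TwistLevel {K : Type*} [Field K] (E : WeierstrassCurve K) (σ : K →+* ℂ)
    (L : IntermediateField K (AlgebraicClosure K)) (d r : ℕ) : Prop :=
  FiniteDimensional K L ∧ Module.finrank K L ≤ d ∧
    ∃ g : L →ₐ[K] L, (∀ x : L, (g ^ r) x = x) ∧ TwistsOver (E.map (algebraMap K L)) g σ r

theorem twists {r : ℕ} (hr : 0 < r) {a : ℕ → ℝ} {B : ℝ}
    (h1 : ∀ j, j < r → j ≠ 0 → |a j| ≤ B) (h2 : r * B < |a 0|) (hB : 0 ≤ B) {ζ : ℂ}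
    (hζ : ζ ^ r = 1) : ∑ j ∈ Finset.range r, ζ ^ j * ((a j : ℝ) : ℂ) ≠ 0 := by
  intro h0
  have hn : ‖ζ‖ = 1 := by
    have h3 : ‖ζ‖ ^ r = 1 := by rw [← norm_pow, hζ, norm_one]
    exact (pow_eq_one_iff_of_nonneg (norm_nonneg ζ) hr.ne').1 h3
  obtain ⟨r, rfl⟩ : ∃ s, r = s + 1 := ⟨r - 1, by omega⟩
  rw [Finset.sum_range_succ', pow_zero, one_mul] at h0
  have h3 : ((a 0 : ℝ) : ℂ) = -∑ j ∈ Finset.range r, ζ ^ (j + 1) * ((a (j + 1) : ℝ) : ℂ) :=
    eq_neg_of_add_eq_zero_right h0
  have h4 : |a 0| ≤ r * B := by
    have h5 : ‖((a 0 : ℝ) : ℂ)‖ = |a 0| := by rw [Complex.norm_real, Real.norm_eq_abs]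
    rw [← h5, h3, norm_neg]
    refine (norm_sum_le _ _).trans ?_
    refine (Finset.sum_le_card_nsmul _ _ B fun j hj => ?_).trans ?_
    · rw [norm_mul, norm_pow, hn, one_pow, one_mul, Complex.norm_real, Real.norm_eq_abs]
      exact h1 (j + 1) (by have := Finset.mem_range.1 hj; omega) (by omega)
    · rw [Finset.card_range, nsmul_eq_mul]
  push_cast at h2
  nlinarith

/-- Let `E` be an elliptic curve over a number field `K` whose `j`-invariant is an algebraic
integer, or, more generally, which has an integral parameter `k`. Then there is a number `c` such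
that for every complex embedding `σ` of `K` and every `m` there are a finite extension `L` of `K` of
degree at most `c * (m + 1) * 16 ^ m` with an automorphism `g` over `K`, `g ^ (2 ^ m) = 1`, an
element `α` of `K_2 ⊗ ℚ` of the function field of `E` over `L`, whose translates by `g` belong to
the integral part, and one closed path of complex points of `E` over `σ` such that for EVERY
character of the cyclic group of order `2 ^ m` the corresponding twisted sum of the regulator
integrals of `α, g α, g ^ 2 α, ...` along the path is not zero. In particular `α` generates a free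
module over `ℚ[ℤ / 2 ^ m]` in the integral part, and the regulator pairing with the translates of
the path is perfect on it. -/
theorem result (K : Type*) [Field K] [NumberField K] (E : WeierstrassCurve K) [E.IsElliptic]
    (h : IntegralParameter E) :
    ∃ c : ℕ, ∀ (σ : K →+* ℂ) (m : ℕ), ∃ L : IntermediateField K (AlgebraicClosure K),
      TwistLevel E σ L (c * (m + 1) * 16 ^ m) (2 ^ m) := by
  have key : ∀ {k : AlgebraicClosure K} (_ : k ≠ 0) (_ : k ^ 2 ≠ 16) (_ : IsIntegral ℤ k)
      (C : VariableChange (AlgebraicClosure K))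
      (_ : C • E.map (algebraMap K (AlgebraicClosure K)) = crv k),
      ∃ c : ℕ, ∀ (σ : K →+* ℂ) (m : ℕ), ∃ L : IntermediateField K (AlgebraicClosure K),
      TwistLevel E σ L (c * (m + 1) * 16 ^ m) (2 ^ m) := by
    intro k h0 h4 hi C hC
    obtain ⟨c, h2⟩ := Pool.Agent.Run7.h770.PG.grow_all E h0 h4 hi C hC
    refine ⟨c, fun σ m => ?_⟩
    obtain ⟨L, a1, a2, g, a3, Γ, b1, b2, b3, α, l, B, c0, c1, c2, -, c4, c5, c6⟩ := h2 σ m
    refine ⟨L, a1, a2, g, a3, Γ, ⟨b1, b2, b3⟩, α, c1, c2, (l 0).regQ, ⟨l 0, ?_, rfl⟩,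
      fun ζ hζ => ?_⟩
    · obtain ⟨τ, hτ, h5⟩ := c0 0
      intro t c
      rw [h5, hτ]
    · exact twists (a := fun j => (l 0).regQ ((K2Q Γ ^ j) α)) (by positivity) c4
        (by simpa using c5) c6 hζ
  rcases h with hj | ⟨k, hi, hk⟩
  · obtain ⟨k, h0, h4, hjk, C, hC⟩ := exists_crv (E.map (algebraMap K (AlgebraicClosure K)))
    refine key h0 h4 ?_ C hC
    refine Pool.Agent.Run7.h770.UB.k_int (j := jk k) ?_ ?_
    · rw [hjk, WeierstrassCurve.map_j]
      exact map_isIntegral_int _ hj
    · unfold jk
      rw [div_mul_cancel₀]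
      exact mul_ne_zero (pow_ne_zero 2 h0) (sub_ne_zero.2 h4)
  · have h16 : (16 : AlgebraicClosure K) ≠ 0 := by norm_num
    have h0 : k ≠ 0 := by
      rintro rfl
      have : (16 : AlgebraicClosure K) ^ 3 = 0 := by linear_combination hk
      exact pow_ne_zero 3 h16 this
    have h4 : k ^ 2 ≠ 16 := by
      intro h
      have h3 : k ^ 4 = 256 := by
        have : k ^ 4 = (k ^ 2) ^ 2 := by ring
        rw [this, h]
        norm_num
      rw [h3, h] at hk
      have : (16 : AlgebraicClosure K) ^ 3 = 0 := by linear_combination hk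
      exact pow_ne_zero 3 h16 this
    have hjk : jk k = (E.map (algebraMap K (AlgebraicClosure K))).j := by
      rw [WeierstrassCurve.map_j]
      unfold jk
      rw [div_eq_iff (mul_ne_zero (pow_ne_zero 2 h0) (sub_ne_zero.2 h4)), hk]
    have _ := isElliptic_crv h0 h4
    obtain ⟨C, hC⟩ := exists_variableChange_of_j_eq (E.map (algebraMap K (AlgebraicClosure K)))
      (crv k) (by rw [j_crv, hjk])
    exact key h0 h4 hi C hC

end Pool.Agent.Results.MP_0a9c3b_nt.TwistedRegulators
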